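import Pool.Agent.Run7.h507.KR.All

/-!
Domination in the Bergman space of the unit disc: if an analytic function `f` majorizes a monomial
`g = c z^n`, `n ≥ 1`, in the annulus `1/√3 < |z| < 1`, then `g` is dominated by `f`, that is
`‖g φ‖ ≤ ‖f φ‖` for every bounded analytic `φ`. The radius `1/√3` may be replaced by every
`r` with `r² < 17/50`.

Proof: the Bergman kernel `∑ (k+1) t^k` is, up to coefficients with `k < n` (which may be increased),
a positive mixture of kernels `∑ t^k / (1 + β q^k)` of an annulus with `q = 17/50 > 1/3`; the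
multiplication by `g/f` is a contraction for each of these.
-/

set_option autoImplicit false

open MeasureTheory Metric Set

namespace Pool.Agent.Results.MP_5cb574_an.MonomialDominated

/-- The square of the Bergman norm (not normalised by `π`), with values in `[0, ∞]`. -/
noncomputable def normSq (h : ℂ → ℂ) : ENNReal := ∫⁻ z in ball (0 : ℂ) 1, ‖h z‖ₑ ^ 2

/-- The Bergman space. -/
def InBergman (h : ℂ → ℂ) : Prop := DifferentiableOn ℂ h (ball 0 1) ∧ normSq h < ⊤

/-- `f` majorizes `g` in the annulus `r < |z| < 1`. -/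
def Majorizes (f g : ℂ → ℂ) (r : ℝ) : Prop := ∀ z : ℂ, r < ‖z‖ → ‖z‖ < 1 → ‖g z‖ ≤ ‖f z‖

/-- Bounded analytic functions in the unit disc. -/
def IsHInf (φ : ℂ → ℂ) : Prop := DifferentiableOn ℂ φ (ball 0 1) ∧ ∃ C : ℝ, ∀ z ∈ ball (0 : ℂ) 1, ‖φ z‖ ≤ C

/-- `g` is dominated by `f`: `‖g φ‖ ≤ ‖f φ‖` for every `φ ∈ H^∞`. -/
def Dominated (g f : ℂ → ℂ) : Prop :=
  ∀ φ, IsHInf φ → normSq (fun z => g z * φ z) ≤ normSq fun z => f z * φ z

/-- Let `f` be in the Bergman space, `n ≥ 1`, and let `f` majorize `g(z) = c z^n` in the annulus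
`1/√3 < |z| < 1`, or in the annulus `r < |z| < 1` for some `r ≥ 0` with `r² < 17/50`. Then `g` is
dominated by `f`. -/
theorem _root_.Pool.Agent.Results.MP_5cb574_an.MonomialDominated.result
    (f : ℂ → ℂ) (hf : InBergman f) (c : ℂ) (n : ℕ) (hn : 1 ≤ n) :
    (Majorizes f (fun z => c * z ^ n) (1 / √3) → Dominated (fun z => c * z ^ n) f) ∧
    ∀ r : ℝ, 0 ≤ r → r ^ 2 < 17 / 50 → Majorizes f (fun z => c * z ^ n) r →
      Dominated (fun z => c * z ^ n) f := by
  have key : ∀ r : ℝ, 0 ≤ r → r ^ 2 < 17 / 50 → Majorizes f (fun z => c * z ^ n) r →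
      Dominated (fun z => c * z ^ n) f := fun r hr0 hr hm φ hφ =>
    Run7.h507.KR.final hr0 hr hn hf.1 hφ.1 hm
  refine ⟨fun h => key (1 / √3) (by positivity) ?_ h, key⟩
  rw [div_pow, Real.sq_sqrt (by norm_num)]
  norm_num

end Pool.Agent.Results.MP_5cb574_an.MonomialDominated
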